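import Pool.Agent.H20.SM.TP
import Pool.Agent.H69.BV.EA

/-!
# A cofinal family of Galois extensions: two real characters cannot both be exceptional
-/

set_option autoImplicit false

open Finset Real ArithmeticFunction
open scoped Nat

namespace Pool.Agent.H97.SM

open Pool.Agent.H20.SM
open Pool.Agent.H30.BV (cv DS)

theorem cv_lcm {q₁ q₂ : ℕ} (χ₁ : DirichletCharacter ℂ q₁) (χ₂ : DirichletCharacter ℂ q₂)
    (n : ℕ) :
    cv (DirichletCharacter.changeLevel (Nat.dvd_lcm_left q₁ q₂) χ₁ *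
      DirichletCharacter.changeLevel (Nat.dvd_lcm_right q₁ q₂) χ₂) n = cv χ₁ n * cv χ₂ n := by
  by_cases hn : IsUnit (n : ZMod (Nat.lcm q₁ q₂))
  · unfold cv
    rw [MulChar.mul_apply, Pool.Agent.H69.BV.cl_apply χ₁ _ n hn,
      Pool.Agent.H69.BV.cl_apply χ₂ _ n hn]
    rfl
  · have h1 : cv (DirichletCharacter.changeLevel (Nat.dvd_lcm_left q₁ q₂) χ₁ *
      DirichletCharacter.changeLevel (Nat.dvd_lcm_right q₁ q₂) χ₂) n = 0 :=
      MulChar.map_nonunit _ hn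
    rw [h1]
    symm
    by_contra hcon
    have h2 := left_ne_zero_of_mul hcon
    have h3 := right_ne_zero_of_mul hcon
    have h4 : IsUnit (n : ZMod q₁) := by
      by_contra h
      exact h2 (MulChar.map_nonunit χ₁ h)
    have h5 : IsUnit (n : ZMod q₂) := by
      by_contra h
      exact h3 (MulChar.map_nonunit χ₂ h)
    rw [ZMod.isUnit_iff_coprime] at h4 h5 hn
    exact hn (Nat.Coprime.coprime_dvd_right (Nat.lcm_dvd_mul q₁ q₂)
      (Nat.Coprime.mul_right h4 h5))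

theorem ne_lcm {q₁ q₂ : ℕ} (h₁ : 2 ≤ q₁) (h₂ : 2 ≤ q₂) (hne : q₁ ≠ q₂)
    (χ₁ : DirichletCharacter ℂ q₁) (χ₂ : DirichletCharacter ℂ q₂) (hp₁ : χ₁.IsPrimitive)
    (hp₂ : χ₂.IsPrimitive) (hs₂ : χ₂ ^ 2 = 1) :
    DirichletCharacter.changeLevel (Nat.dvd_lcm_left q₁ q₂) χ₁ *
      DirichletCharacter.changeLevel (Nat.dvd_lcm_right q₁ q₂) χ₂ ≠ 1 := by
  intro h
  have hne0 : NeZero (Nat.lcm q₁ q₂) := ⟨Nat.lcm_ne_zero (by omega) (by omega)⟩
  have h3 : DirichletCharacter.changeLevel (Nat.dvd_lcm_right q₁ q₂) χ₂ *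
      DirichletCharacter.changeLevel (Nat.dvd_lcm_right q₁ q₂) χ₂ = 1 := by
    rw [← map_mul, ← sq, hs₂, map_one]
  have h4 : DirichletCharacter.changeLevel (Nat.dvd_lcm_left q₁ q₂) χ₁ =
      DirichletCharacter.changeLevel (Nat.dvd_lcm_right q₁ q₂) χ₂ :=
    mul_right_cancel (h.trans h3.symm)
  have h5 := congrArg DirichletCharacter.conductor h4
  rw [DirichletCharacter.conductor_changeLevel, DirichletCharacter.conductor_changeLevel,
    (DirichletCharacter.isPrimitive_def _).1 hp₁, (DirichletCharacter.isPrimitive_def _).1 hp₂] at h5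
  exact hne h5

theorem rok_lcm {F : Type} [Field F] [NumberField F] {q₁ q₂ : ℕ} (h₁ : Rok F q₁) (h₂ : Rok F q₂) :
    Rok F (Nat.lcm q₁ q₂) := by
  have n₁ : q₁ ≠ 0 := h₁.1.ne_zero
  have n₂ : q₂ ≠ 0 := h₂.1.ne_zero
  refine ⟨?_, ?_⟩
  · rw [Nat.squarefree_iff_prime_squarefree]
    intro p hp hd
    have h3 := Nat.squarefree_iff_prime_squarefree.1 h₁.1 p hp
    have h4 := Nat.squarefree_iff_prime_squarefree.1 h₂.1 p hp
    have h5 : p ^ 2 ∣ q₁ ∨ p ^ 2 ∣ q₂ := by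
      have h6 : p ^ 2 ∣ Nat.lcm q₁ q₂ := by rw [sq]; exact hd
      rw [hp.pow_dvd_iff_le_factorization (Nat.lcm_ne_zero n₁ n₂),
        Nat.factorization_lcm n₁ n₂] at h6
      rw [hp.pow_dvd_iff_le_factorization n₁, hp.pow_dvd_iff_le_factorization n₂]
      simpa using h6
    rcases h5 with h5 | h5
    · exact h3 (by rw [← sq]; exact h5)
    · exact h4 (by rw [← sq]; exact h5)
  · intro p hp
    rw [Nat.mem_primeFactors] at hp
    have h3 : p ∣ q₁ ∨ p ∣ q₂ := by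
      have h4 : p ∣ q₁ * q₂ := hp.2.1.trans (Nat.lcm_dvd_mul q₁ q₂)
      exact (Nat.Prime.dvd_mul hp.1).1 h4
    rcases h3 with h3 | h3
    · exact h₁.2 p (Nat.mem_primeFactors.2 ⟨hp.1, h3, n₁⟩)
    · exact h₂.2 p (Nat.mem_primeFactors.2 ⟨hp.1, h3, n₂⟩)

theorem pf_EAF (hTLF : T_TLF) (hUBF : T_UBF) (hRPF : T_RPF) : T_EAF := by
  intro F _ _ _
  obtain ⟨c, hc, hT⟩ := hTLF F
  obtain ⟨C, E, hC, hU⟩ := hUBF F
  refine ⟨1 / c * (C * 3 ^ E), E, by positivity, ?_⟩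
  intro Q q₁ q₂ χ₁ χ₂ x hQ h₁ hQ₁ h₂ hQ₂ hne hr₁ hr₂ hp₁ hp₂ hs₁ hs₂ hx hx1
  have hre : (1 + (x : ℂ)).re = 1 + x := by simp
  have him : (1 + (x : ℂ)).im = 0 := by simp
  have hrp := hRPF F q₁ q₂ χ₁ χ₂ x (by omega) (by omega) hs₁ hs₂ hx hx1
  have hz : ‖DS (fun n => (aF F n : ℂ)) 0 (1 + x)‖ ≤ 1 / (c * x) := by
    have h3 := (hT 1 1 (1 + x) le_rfl (by rw [hre]; linarith) (by rw [hre]; linarith)).2
    rwa [hre, show (1 + x - 1 : ℝ) = x by ring] at h3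
  have hQr : (3 : ℝ) ≤ Q := by exact_mod_cast hQ
  have hlQ : 0 < Real.log Q := Real.log_pos (by linarith)
  have hm0 : 1 ≤ Nat.lcm q₁ q₂ :=
    Nat.one_le_iff_ne_zero.2 (Nat.lcm_ne_zero (by omega) (by omega))
  have hmQ : ((Nat.lcm q₁ q₂ : ℕ) : ℝ) ≤ (Q : ℝ) ^ 2 := by
    have h3 : Nat.lcm q₁ q₂ ≤ q₁ * q₂ :=
      Nat.le_of_dvd (Nat.mul_pos (by omega) (by omega)) (Nat.lcm_dvd_mul q₁ q₂)
    have h4 : q₁ * q₂ ≤ Q ^ 2 := by rw [sq]; exact Nat.mul_le_mul hQ₁ hQ₂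
    exact_mod_cast h3.trans h4
  have hpb : ‖DS (fun n => (aF F n : ℂ) * (cv χ₁ n * cv χ₂ n)) 0 (1 + x)‖ ≤
      C * (3 * Real.log Q) ^ E := by
    have h3 := (hU (Nat.lcm q₁ q₂) _ (1 + x) hm0 (rok_lcm hr₁ hr₂) (by rw [hre]; linarith)
      (by rw [hre]; linarith)).1 (ne_lcm h₁ h₂ hne χ₁ χ₂ hp₁ hp₂ hs₂)
    have h4 : ac F (DirichletCharacter.changeLevel (Nat.dvd_lcm_left q₁ q₂) χ₁ *
      DirichletCharacter.changeLevel (Nat.dvd_lcm_right q₁ q₂) χ₂) =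
        fun n => (aF F n : ℂ) * (cv χ₁ n * cv χ₂ n) := by
      funext n
      unfold ac
      rw [cv_lcm]
    rw [h4, him, abs_zero, zero_add] at h3
    refine h3.trans ?_
    have hm1 : (1 : ℝ) ≤ ((Nat.lcm q₁ q₂ : ℕ) : ℝ) := by exact_mod_cast hm0
    have h5 : Real.log (((Nat.lcm q₁ q₂ : ℕ) : ℝ) * 3) ≤ 3 * Real.log Q := by
      rw [show (3 : ℝ) * Real.log Q = Real.log ((Q : ℝ) ^ 3) by
        rw [Real.log_pow]; norm_num]
      refine Real.log_le_log (by positivity) ?_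
      have : (Q : ℝ) ^ 3 = (Q : ℝ) ^ 2 * Q := by ring
      rw [this]
      exact mul_le_mul hmQ hQr (by norm_num) (by positivity)
    have h6 : 0 ≤ Real.log (((Nat.lcm q₁ q₂ : ℕ) : ℝ) * 3) := Real.log_nonneg (by linarith)
    exact mul_le_mul_of_nonneg_left (pow_le_pow_left₀ h6 h5 E) hC.le
  set a := ‖DS (fun n => (aF F n : ℂ)) 0 (1 + x)‖
  set b := ‖DS (ac F χ₁) 0 (1 + x)‖
  set b' := ‖DS (ac F χ₂) 0 (1 + x)‖
  set d := ‖DS (fun n => (aF F n : ℂ) * (cv χ₁ n * cv χ₂ n)) 0 (1 + x)‖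
  have hb : 0 ≤ b := norm_nonneg _
  have hc' : 0 ≤ b' := norm_nonneg _
  have hd : 0 ≤ d := norm_nonneg _
  calc (1 : ℝ) ≤ a * b * b' * d := hrp
    _ ≤ (1 / (c * x)) * b * b' * (C * (3 * Real.log Q) ^ E) := by
      refine mul_le_mul ?_ hpb hd (by positivity)
      exact mul_le_mul_of_nonneg_right (mul_le_mul_of_nonneg_right hz hb) hc'
    _ = 1 / c * (C * 3 ^ E) / x * b * b' * Real.log Q ^ E := by
      rw [mul_pow]
      field_simp

end Pool.Agent.H97.SM
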