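import Pool.Agent.H97.SM.LEM
import Pool.Agent.H41.SS.All
import Pool.Agent.H97.RL.All4

/-!
Resolution on random k-CNFs, the exact savings (MP_c62aed_lc): refutations in which few wide lines
are used more than once: the inequality without hypotheses.
-/

set_option autoImplicit false

namespace Pool.Agent.H97.SM

open Finset Pool.Agent.H97.RK Pool.Agent.H97.RL Pool.Agent.H41.SS

theorem lem_of {n k m : ℕ} (F : Fml n k m) (a : ℝ) (t d w : ℕ) (ht : 1 ≤ t) (hw : 12 * t ≤ w)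
    (hwd : w ≤ d) (hn : w + d + 1 ≤ n) (hEx : Ex F (2 * t)) (hg : ∀ x, Gd F t d w x)
    (hB : 2 * (bl n (d + 2 * t) : ℝ) * bl n (4 * t) ≤ (2 : ℝ) ^ (a * n))
    (hC : 2 * (2 ^ n * bl n (w + d)) ≤ 3 ^ n)
    (S r : ℕ) (line : ℕ → Clause n) (rule : ℕ → Rule n) (href : IsRef F S r line rule)
    (U : Finset ℕ) (hO : Once S rule U) (w₀ : ℕ) :
    (2 : ℝ) ^ ((1 - 10 * a) * n) ≤ S * (3 / 2 : ℝ) ^ w₀ *
      (((U.filter fun l => w₀ < (line l).card).card : ℝ) + 1) ^ (3 / 2 : ℝ) :=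
  lemmas_ofS Pool.Agent.H42.SSM.pf_TRN stp rsr
    (Pool.Agent.H35.SSM.pf_TAS Pool.Agent.H42.SSM.pf_INI ask') Pool.Agent.H14.RLM.pf_TRE
    (Pool.Agent.H97.RLM.pf_CN6 Pool.Agent.H7.RLM.pf_CN3 Pool.Agent.H12.RLM.pf_CN4)
    Pool.Agent.H49.RLM.pf_NU2 Pool.Agent.H68.RLM.pf_BLA F a t d w ht hw hwd hn hEx hg hB hC S r
    line rule href U hO w₀

end Pool.Agent.H97.SM
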