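import Pool.Agent.H41.SS.Fin1
import Pool.Agent.H97.RL.FNM

/-!
Resolution on random k-CNFs, the exact savings (MP_c62aed_lc): refutations in which few wide lines
are used more than once.
-/

set_option autoImplicit false

namespace Pool.Agent.H97.SM

open Finset Pool.Agent.H97.RK Pool.Agent.H97.RL Pool.Agent.H41.SS

/-- no axiom is falsified in a state -/
theorem noAxS {n k m : ℕ} {F : Fml n k m} {D b : ℕ} {y : Fin n → Bool} {A W : Finset (Fin n)}
    {J : Finset (Fin m)} {line : ℕ → Clause n} {i : ℕ} (hSt : Sta F D b y A W J)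
    (hF : Falsified (line i) y) (hv : vs (line i) ⊆ A)
    (hC : Correct F line i (Rule.ax : Rule n)) : False := by
  obtain ⟨c, hc⟩ := hC
  have h1 : ∀ p, F c p ∈ line i := fun p => hc (mem_image_of_mem _ (mem_univ p))
  have h2 : ∀ p, (F c p).1 ∈ A := fun p => hv (mem_image_of_mem _ (h1 p))
  have h3 : ∀ p, y (F c p).1 ≠ (F c p).2 := fun p => hF _ (h1 p)
  have hD := hSt.lt
  have h4 := hSt.inv {c} (by rw [card_singleton]; omega) (by
    intro c' hc'
    rw [mem_singleton] at hc'
    subst hc'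
    exact fun p _ => h3 p)
  have h5 : VS F {c} \ (A ∪ W) = ∅ := by
    rw [sdiff_eq_empty_iff_subset]
    intro v hv'
    unfold VS at hv'
    rw [mem_biUnion] at hv'
    obtain ⟨c', hc', hv''⟩ := hv'
    rw [mem_singleton] at hc'
    subst hc'
    unfold vF at hv''
    rw [mem_image] at hv''
    obtain ⟨p, -, rfl⟩ := hv''
    exact mem_union_left _ (h2 p)
  rw [h5, card_empty, card_singleton] at h4
  omega

/-- falsification depends on the variables of the clause only -/
theorem fals_congr {n : ℕ} {C : Clause n} {y y' : Fin n → Bool} {A : Finset (Fin n)}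
    (hF : Falsified C y) (hv : vs C ⊆ A) (h : ∀ u ∈ A, y' u = y u) : Falsified C y' := by
  intro l hl
  rw [h l.1 (hv (mem_image_of_mem _ hl))]
  exact hF l hl

/-- the state at the line `l`, `y₀` are the fixed values on `A₀` -/
def AtN {n k m : ℕ} (F : Fml n k m) (D d w : ℕ) (line : ℕ → Clause n) (y₀ : Fin n → Bool)
    (A₀ : Finset (Fin n)) (l : ℕ) : Prop :=
  ∃ (y : Fin n → Bool) (W : Finset (Fin n)) (J : Finset (Fin m)),
    Sta F D 0 y (A₀ ∪ vs (line l)) W J ∧ (∀ u ∈ A₀, y u = y₀ u) ∧ Falsified (line l) y ∧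
    (A₀ ∪ vs (line l)).card + w + d ≤ n

/-- the path through a piece which is a tree -/
theorem pcn (hTRN : T_TRN) (hSTP : Pool.Agent.H41.SS.T_STP) (hRSR : T_RSR) {n k m : ℕ} (F : Fml n k m)
    (D d w : ℕ) (hw : 6 * D ≤ w) (hG : ∀ x, Gd F D d w x) (S r : ℕ) (line : ℕ → Clause n)
    (rule : ℕ → Rule n) (hR : IsRef F S r line rule) (U : Finset ℕ) (an : ℕ → ℕ)
    (ls : ℕ → List (Fin n × Bool)) (hT : Tree S r rule U an ls) (x z y₀ : Fin n → Bool)
    (A₀ : Finset (Fin n)) (l : ℕ) (hlS : l < S) (hlr : l ≤ r) (hlU : l ∈ U ∨ l = r)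
    (hdst : dst y₀ x ≤ 2 * D) (hAt : AtN F D d w line y₀ A₀ l) :
    (∃ i, i < S ∧ an i = l ∧ Ser (line l) (pas (ls i)) (w + d + 4 * D) x z A₀) ∨
      ∃ l', l' < l ∧ l' ∈ U ∧ AtN F D d w line y₀ A₀ l' := by
  classical
  obtain ⟨y₁, W₁, J₁, hSt₁, hy₁, hF₁, hcard₁⟩ := hAt
  obtain ⟨B, hB⟩ : ∃ B, B = A₀ ∪ vs (line l) := ⟨_, rfl⟩
  rw [← hB] at hSt₁ hcard₁
  have hA₀B : A₀ ⊆ B := by rw [hB]; exact subset_union_left
  have hlB : vs (line l) ⊆ B := by rw [hB]; exact subset_union_right
  obtain ⟨y, hy⟩ : ∃ y : Fin n → Bool, y = fun u => if u ∈ B ∪ W₁ then y₁ u else z u := ⟨_, rfl⟩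
  have hyy : ∀ u ∈ B ∪ W₁, y u = y₁ u := by
    intro u hu
    rw [hy]
    simp only
    rw [if_pos hu]
  have hyz : ∀ u, u ∉ B ∪ W₁ → y u = z u := by
    intro u hu
    rw [hy]
    simp only
    rw [if_neg hu]
  have hSt : Sta F D 0 y B W₁ J₁ := hTRN n k m F D 0 y₁ y B W₁ J₁ hSt₁ hyy
  have hyB : ∀ u ∈ B, y u = y₁ u := fun u hu => hyy u (mem_union_left _ hu)
  have hFl : Falsified (line l) y := fals_congr hF₁ hlB hyB
  have hyA₀ : ∀ u ∈ A₀, y u = y₀ u := fun u hu => by rw [hyB u (hA₀B hu), hy₁ u hu]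
  -- the induction
  have key : ∀ i : ℕ, i < S → i ≤ l → an i = l → ∀ (y' : Fin n → Bool) (A' W' : Finset (Fin n))
      (J' : Finset (Fin m)), Sta F D 0 y' A' W' J' → (∀ u, u ∉ W' → y' u = y u) → W₁ ⊆ W' →
      A' = B ∪ ((ls i).map Prod.fst).toFinset → Falsified (line i) y' → vs (line i) ⊆ A' →
      (∀ u ∈ B, y' u = y u) → (∀ p ∈ ls i, y' p.1 = p.2) → A'.card + w + d ≤ n →
      (∃ i, i < S ∧ an i = l ∧ Ser (line l) (pas (ls i)) (w + d + 4 * D) x z A₀) ∨
        ∃ l', l' < l ∧ l' ∈ U ∧ AtN F D d w line y₀ A₀ l' := by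
    intro i
    induction i using Nat.strong_induction_on with
    | _ i IH =>
      intro hiS hil hani y' A' W' J' hSt' hy' hWW hA' hF' hv' hyB' hls hcard
      by_cases hbig : A'.card + 1 + w + d ≤ n
      · obtain ⟨hax, i', y'', A'', W'', J'', hi', hSt'', hx'', hF'', hv'', hW'', hy'', hcase⟩ :=
          hSTP n k m F D d w 0 (by omega) S r line rule hR i y y' A' W' J' hiS (hG y) hSt' hy' hF'
            hv' hbig
        have hBA' : B ⊆ A' := by rw [hA']; exact subset_union_left
        have hA'A'' : A' ⊆ A'' := by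
          rcases hcase with ⟨_, h⟩ | ⟨_, _, h, _⟩
          · rw [h]
          · rw [h]
            exact subset_insert _ _
        have hc'' : A''.card ≤ A'.card + 1 := by
          rcases hcase with ⟨_, h⟩ | ⟨_, _, h, _⟩
          · rw [h]; omega
          · rw [h]
            exact card_insert_le _ _
        by_cases hiU : i' ∈ U
        · right
          refine ⟨i', by omega, hiU, ?_⟩
          have hsub : A₀ ∪ vs (line i') ⊆ A'' :=
            union_subset (hA₀B.trans (hBA'.trans hA'A'')) hv''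
          have hcs : (A₀ ∪ vs (line i')).card + w + d ≤ n := by
            have := card_le_card hsub
            omega
          obtain ⟨y₃, W₃, J₃, h2, _, h1⟩ := hRSR n k m F D d w 0 hw y'' y'' A''
            (A₀ ∪ vs (line i')) W'' J'' (hG y'') hSt'' hsub (fun _ _ => rfl) hcs
          refine ⟨y₃, W₃, J₃, h1, ?_, ?_, hcs⟩
          · intro u hu
            rw [h2 u (mem_union_left _ hu), hy'' u (mem_union_left _ (hBA' (hA₀B hu))),
              hyB' u (hA₀B hu), hyA₀ u hu]
          · exact fals_congr hF'' subset_union_right h2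
        · have hir : i' ≠ r := by omega
          have hi'S : i' < S := by omega
          have hax' : rule i' ≠ Rule.ax := by
            intro hx
            have hC := hR.2.2 i' hi'S
            rw [hx] at hC
            exact noAxS hSt'' hF'' hv'' hC
          have hVA' : ∀ p ∈ ls i, p.1 ∈ A' := by
            intro p hp
            rw [hA']
            refine mem_union_right _ ?_
            rw [List.mem_toFinset]
            exact List.mem_map_of_mem hp
          have hyB'' : ∀ u ∈ B, y'' u = y u := fun u hu => by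
            rw [hy'' u (mem_union_left _ (hBA' hu)), hyB' u hu]
          have hold : ∀ p ∈ ls i, y'' p.1 = p.2 := fun p hp => by
            rw [hy'' p.1 (mem_union_left _ (hVA' p hp)), hls p hp]
          have hcard'' : A''.card + w + d ≤ n := by omega
          have hWW'' : W₁ ⊆ W'' := hWW.trans hW''
          rcases hcase with ⟨hr, hAA⟩ | ⟨v, a, hAA, ⟨hr, hyv⟩ | ⟨hr, hyv⟩⟩
          · obtain ⟨t1, t2⟩ := hT.weak i i' hiS hiU hir hax' hr
            refine IH i' hi' hi'S (by omega) (by rw [t1, hani]) y'' A'' W'' J'' hSt'' hx'' hWW''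
              ?_ hF'' hv'' hyB'' ?_ hcard''
            · rw [hAA, t2]
              exact hA'
            · rw [t2]
              exact hold
          · obtain ⟨t1, t2⟩ := hT.left i i' a v hiS hiU hir hax' hr
            refine IH i' hi' hi'S (by omega) (by rw [t1, hani]) y'' A'' W'' J'' hSt'' hx'' hWW''
              ?_ hF'' hv'' hyB'' ?_ hcard''
            · rw [hAA, t2, hA', List.map_cons, List.toFinset_cons, union_insert]
            · rw [t2]
              intro p hp
              rcases List.mem_cons.mp hp with h | h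
              · rw [h]
                exact hyv
              · exact hold p h
          · obtain ⟨t1, t2⟩ := hT.right i i' a v hiS hiU hir hax' hr
            refine IH i' hi' hi'S (by omega) (by rw [t1, hani]) y'' A'' W'' J'' hSt'' hx'' hWW''
              ?_ hF'' hv'' hyB'' ?_ hcard''
            · rw [hAA, t2, hA', List.map_cons, List.toFinset_cons, union_insert]
            · rw [t2]
              intro p hp
              rcases List.mem_cons.mp hp with h | h
              · rw [h]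
                exact hyv
              · exact hold p h
      · -- the end of the path
        left
        refine ⟨i, hiS, hani, y', fals_congr hFl hlB hyB', (univ.filter fun v => v ∈ A₀ ∧
          y' v ≠ x v) ∪ W' ∪ (univ \ A'), ?_, ?_⟩
        · have h1 : (univ.filter fun v => v ∈ A₀ ∧ y' v ≠ x v).card ≤ 2 * D := by
            refine (card_le_card ?_).trans hdst
            intro v hv
            rw [mem_filter] at hv ⊢
            refine ⟨mem_univ _, ?_⟩
            rw [← hyA₀ v hv.2.1, ← hyB' v (hA₀B hv.2.1)]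
            exact hv.2.2
          have h2 : (univ \ A').card ≤ w + d := by
            have h3 := card_sdiff_add_card_eq_card (subset_univ A')
            rw [card_univ, Fintype.card_fin] at h3
            omega
          have h3 := hSt'.crd
          have h5 := hSt'.lt
          have h10 := card_union_le ((univ.filter fun v => v ∈ A₀ ∧ y' v ≠ x v) ∪ W') (univ \ A')
          have h11 := card_union_le (univ.filter fun v => v ∈ A₀ ∧ y' v ≠ x v) W'
          omega
        · intro v hv
          rw [mem_union, mem_union, not_or, not_or, mem_filter, mem_sdiff] at hv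
          obtain ⟨⟨n1, n2⟩, n3⟩ := hv
          have hvA' : v ∈ A' := by
            by_contra h
            exact n3 ⟨mem_univ _, h⟩
          have e1 : v ∈ A₀ → x v = y' v := by
            intro h
            by_contra hne
            exact n1 ⟨mem_univ _, h, fun h' => hne h'.symm⟩
          have e2 : v ∉ B → z v = y' v := by
            intro h
            rw [hy' v n2, hyz v]
            rw [mem_union, not_or]
            exact ⟨h, fun h' => n2 (hWW h')⟩
          refine ⟨fun _ h => e1 h, fun hvl => ⟨fun b hb => ?_, fun hnone => ?_⟩⟩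
          · have hmem : (v, b) ∈ ls i := by
              unfold pas at hb
              rw [Option.map_eq_some_iff] at hb
              obtain ⟨p, hp1, hp2⟩ := hb
              have hp3 := List.find?_some hp1
              have hp4 := List.mem_of_find?_eq_some hp1
              simp only [decide_eq_true_eq] at hp3
              have : p = (v, b) := Prod.ext hp3 hp2
              rw [← this]
              exact hp4
            have hyb : y' v = b := hls (v, b) hmem
            constructor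
            · intro h
              rw [e1 h, hyb]
            · intro h
              have hvB : v ∉ B := by
                rw [hB, mem_union, not_or]
                exact ⟨h, hvl⟩
              rw [e2 hvB, hyb]
          · have hVnot : v ∉ ((ls i).map Prod.fst).toFinset := by
              rw [List.mem_toFinset, List.mem_map]
              rintro ⟨p, hp1, hp2⟩
              unfold pas at hnone
              rw [Option.map_eq_none_iff, List.find?_eq_none] at hnone
              exact hnone p hp1 (by simpa using hp2)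
            rw [hA', mem_union] at hvA'
            have hvB := hvA'.resolve_right hVnot
            rw [hB, mem_union] at hvB
            exact hvB.resolve_right hvl
  obtain ⟨b1, b2⟩ := hT.base l hlU
  refine key l hlS le_rfl b1 y B W₁ J₁ hSt (fun _ _ => rfl) (Subset.refl _) ?_ hFl hlB
    (fun u _ => rfl) ?_ hcard₁
  · rw [b2]
    simp
  · rw [b2]
    intro p hp
    exact absurd hp (List.not_mem_nil)

/-- one line for all `z` -/
theorem serve (hTRN : T_TRN) (hSTP : Pool.Agent.H41.SS.T_STP) (hRSR : T_RSR) (hTAS : T_TAS) {n k m : ℕ}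
    (F : Fml n k m) (D d w : ℕ) (hD : 1 ≤ D) (hw : 6 * D ≤ w) (hEx : Ex F D)
    (hG : ∀ x, Gd F D d w x) (S r : ℕ) (line : ℕ → Clause n)
    (rule : ℕ → Rule n) (hR : IsRef F S r line rule) (U : Finset ℕ) (an : ℕ → ℕ)
    (ls : ℕ → List (Fin n × Bool)) (hT : Tree S r rule U an ls) (x : Fin n → Bool)
    (A₀ : Finset (Fin n)) (hA : A₀.card + (w + d) ≤ n) :
    ∃ l, l < S ∧ (l ∈ U ∨ l = r) ∧ ∀ z, ∃ i, i < S ∧ an i = l ∧
      Ser (line l) (pas (ls i)) (w + d + 4 * D) x z A₀ := by
  by_contra hcon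
  push Not at hcon
  obtain ⟨y₀, W, J, hSt, hd⟩ := hTAS n k m F D d w hD hw hEx hG x A₀ hA
  have hv : vs (∅ : Clause n) = ∅ := by
    unfold vs
    exact Finset.image_empty _
  have hlr := hR.2.1
  have hAt : AtN F D d w line y₀ A₀ r := by
    refine ⟨y₀, W, J, ?_, fun _ _ => rfl, ?_, ?_⟩
    · rw [hlr, hv, union_empty]
      exact hSt
    · rw [hlr]
      intro l hl
      exact absurd hl (Finset.notMem_empty l)
    · rw [hlr, hv, union_empty]
      omega
  have key : ∀ l, l < S → l ≤ r → (l ∈ U ∨ l = r) → ¬ AtN F D d w line y₀ A₀ l := by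
    intro l
    induction l using Nat.strong_induction_on with
    | _ l ih =>
      intro h1 h2 h3 h4
      obtain ⟨z, hz⟩ := hcon l h1 h3
      rcases pcn hTRN hSTP hRSR F D d w hw hG S r line rule hR U an ls hT x z y₀ A₀ l h1 h2 h3 hd
        h4 with ⟨i, h5, h6, h7⟩ | ⟨l', h5, h6, h7⟩
      · exact hz i h5 h6 h7
      · exact ih l' h5 (by omega) (by omega) (Or.inl h6) h7
  exact key r hR.1 le_rfl (Or.inr rfl) hAt

/-- from the served pairs to the size -/
theorem lemmas_gen (hTRE : T_TRE) (hCN6 : T_CN6) (hNU2 : T_NU2) (hBLA : T_BLA) {n k m : ℕ}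
    (F : Fml n k m) (ε : ℝ) (q a : ℕ) (hX : 32 * (bl n q : ℝ) ^ 5 ≤ (2 : ℝ) ^ (ε * n))
    (hC : 4 * (4 ^ n * bl n a) ≤ 8 ^ n)
    (S r : ℕ) (line : ℕ → Clause n) (rule : ℕ → Rule n) (href : IsRef F S r line rule)
    (U : Finset ℕ) (hU : Once S rule U)
    (hserve : ∀ (an : ℕ → ℕ) (ls : ℕ → List (Fin n × Bool)), Tree S r rule U an ls →
      ∀ (x : Fin n → Bool) (A : Finset (Fin n)), A.card + a ≤ n →
      ∃ l, l < S ∧ (l ∈ U ∨ l = r) ∧ ∀ z, ∃ i, i < S ∧ an i = l ∧
        Ser (line l) (pas (ls i)) q x z A) (w : ℕ) :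
    (2 : ℝ) ^ ((1 - ε) * n) ≤ S * (3 / 2 : ℝ) ^ w *
      (((U.filter fun l => w < (line l).card).card : ℝ) + 1) ^ (3 / 2 : ℝ) := by
  classical
  obtain ⟨an, ls, hT⟩ := hTRE n k m F S r line rule href U hU
  obtain ⟨w', hw'⟩ : ∃ w', w' = min w n := ⟨_, rfl⟩
  have hw'n : w' ≤ n := by omega
  have hw'w : w' ≤ w := by omega
  obtain ⟨V, hV⟩ : ∃ V, V = U.filter fun l => l < S ∧ w' < (vs (line l)).card := ⟨_, rfl⟩
  have h1 : ∀ w₀, w' ≤ w₀ → ∀ (x : Fin n → Bool) (A : Finset (Fin n)), A.card + a ≤ n →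
      ∃ l, (l ∈ V ∨ (vs (line l)).card ≤ w₀) ∧ ∀ z, ∃ i,
        (l, i) ∈ (range S).image (fun i => (an i, i)) ∧
        Ser (line l) ((fun _ i => pas (ls i)) l i) q x z A := by
    intro w₀ hw₀ x A hA
    obtain ⟨l, hl, hlU, h⟩ := hserve an ls hT x A hA
    refine ⟨l, ?_, fun z => ?_⟩
    · rcases hlU with h | h
      · by_cases hc : (vs (line l)).card ≤ w₀
        · exact Or.inr hc
        · refine Or.inl ?_
          rw [hV, mem_filter]
          exact ⟨h, hl, by omega⟩
      · refine Or.inr ?_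
        rw [h, href.2.1]
        simp [vs]
    · obtain ⟨i, hi, hil, hs⟩ := h z
      exact ⟨i, mem_image.2 ⟨i, mem_range.2 hi, by rw [hil]⟩, hs⟩
  have hM : V.card ≤ S := by
    refine (card_le_card (fun i hi => ?_ : _ ⊆ range S)).trans (le_of_eq (card_range S))
    rw [hV, mem_filter] at hi
    exact mem_range.2 hi.2.1
  have hMU : V.card ≤ (U.filter fun l => w < (line l).card).card := by
    refine card_le_card fun i hi => ?_
    rw [hV, mem_filter] at hi
    rw [mem_filter]
    refine ⟨hi.1, ?_⟩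
    have h2 : (vs (line i)).card ≤ (line i).card := card_image_le
    have h3 : (vs (line i)).card ≤ n := by
      simpa using card_le_univ (vs (line i))
    have h4 := hi.2.2
    omega
  have h2 := hNU2 n S V.card (bl n q ^ 2) (bl n a) w'
    (Nat.one_le_pow _ _ (hBLA.2.2 _ _)) hM hC hw'n (by
      intro w₀ hw hwn
      refine (hCN6 n q a w₀ line V _ _ hwn (h1 w₀ hw)).trans ?_
      refine Nat.add_le_add_right (Nat.add_le_add_right (Nat.mul_le_mul_right _ ?_) _) _
      exact card_image_le.trans (le_of_eq (card_range S)))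
  have h3 := real_of_num n S V.card _ (bl n q) 3 w' ε hMU (by
      refine h2.trans (le_of_eq ?_)
      ring) hX
  refine h3.trans ?_
  refine mul_le_mul (mul_le_mul_of_nonneg_left
    (pow_le_pow_right₀ (by norm_num) hw'w) (Nat.cast_nonneg _)) (le_of_eq (by norm_num))
    (by positivity) (by positivity)

/-- the ball -/
theorem ball_le (hBLA : T_BLA) (n t d w : ℕ) (a : ℝ) (hwd : w ≤ d)
    (hB : 2 * (bl n (d + 2 * t) : ℝ) * bl n (4 * t) ≤ (2 : ℝ) ^ (a * n)) :
    32 * (bl n (w + d + 4 * (2 * t)) : ℝ) ^ 5 ≤ (2 : ℝ) ^ (10 * a * n) := by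
  obtain ⟨p, hp⟩ : ∃ p : ℝ, p = bl n (d + 2 * t) := ⟨_, rfl⟩
  obtain ⟨s, hs⟩ : ∃ s : ℝ, s = bl n (4 * t) := ⟨_, rfl⟩
  have hp1 : 1 ≤ p := by rw [hp]; exact_mod_cast hBLA.2.2 n _
  have hs1 : 1 ≤ s := by rw [hs]; exact_mod_cast hBLA.2.2 n _
  have h1 : bl n (w + d + 4 * (2 * t)) ≤ (bl n (d + 2 * t) * bl n (4 * t)) ^ 2 := by
    have e1 : w + d + 4 * (2 * t) = w + (d + (4 * t + 4 * t)) := by ring
    have e2 : bl n w ≤ bl n (d + 2 * t) := hBLA.2.1 n _ _ (by omega)
    have e3 : bl n d ≤ bl n (d + 2 * t) := hBLA.2.1 n _ _ (by omega)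
    calc bl n (w + d + 4 * (2 * t)) = bl n (w + (d + (4 * t + 4 * t))) := by rw [e1]
      _ ≤ bl n w * bl n (d + (4 * t + 4 * t)) := hBLA.1 n _ _
      _ ≤ bl n w * (bl n d * bl n (4 * t + 4 * t)) := Nat.mul_le_mul_left _ (hBLA.1 n _ _)
      _ ≤ bl n w * (bl n d * (bl n (4 * t) * bl n (4 * t))) :=
          Nat.mul_le_mul_left _ (Nat.mul_le_mul_left _ (hBLA.1 n _ _))
      _ ≤ bl n (d + 2 * t) * (bl n (d + 2 * t) * (bl n (4 * t) * bl n (4 * t))) :=
          Nat.mul_le_mul e2 (Nat.mul_le_mul_right _ e3)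
      _ = _ := by ring
  have h2 : (bl n (w + d + 4 * (2 * t)) : ℝ) ≤ (p * s) ^ 2 := by
    rw [hp, hs]
    exact_mod_cast h1
  have h3 : (2 : ℝ) ^ (10 * a * n) = ((2 : ℝ) ^ (a * n)) ^ 10 := by
    rw [← Real.rpow_natCast, ← Real.rpow_mul (by norm_num)]
    congr 1
    push_cast
    ring
  rw [h3]
  rw [← hp, ← hs] at hB
  have hps : 1 ≤ p * s := by nlinarith
  calc 32 * (bl n (w + d + 4 * (2 * t)) : ℝ) ^ 5 ≤ 32 * ((p * s) ^ 2) ^ 5 := by
        refine mul_le_mul_of_nonneg_left ?_ (by norm_num)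
        exact pow_le_pow_left₀ (Nat.cast_nonneg _) h2 5
    _ ≤ (2 * p * s) ^ 10 := by
        have e : (2 * p * s) ^ 10 = 1024 * ((p * s) ^ 2) ^ 5 := by ring
        rw [e]
        have : 0 ≤ ((p * s) ^ 2) ^ 5 := by positivity
        linarith
    _ ≤ _ := pow_le_pow_left₀ (by positivity) hB 10

/-- tree-like refutations with few wide lemmas -/
theorem lemmas_ofS (hTRN : T_TRN) (hSTP : Pool.Agent.H41.SS.T_STP) (hRSR : T_RSR) (hTAS : T_TAS) (hTRE : T_TRE)
    (hCN6 : T_CN6) (hNU2 : T_NU2) (hBLA : T_BLA) {n k m : ℕ} (F : Fml n k m) (a : ℝ)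
    (t d w : ℕ) (ht : 1 ≤ t) (hw : 12 * t ≤ w) (hwd : w ≤ d) (hnn : w + d + 1 ≤ n)
    (hEx : Ex F (2 * t)) (hg : ∀ x, Gd F t d w x)
    (hB : 2 * (bl n (d + 2 * t) : ℝ) * bl n (4 * t) ≤ (2 : ℝ) ^ (a * n))
    (hC : 2 * (2 ^ n * bl n (w + d)) ≤ 3 ^ n)
    (S r : ℕ) (line : ℕ → Clause n) (rule : ℕ → Rule n) (href : IsRef F S r line rule)
    (U : Finset ℕ) (hU : Once S rule U) (w₀ : ℕ) :
    (2 : ℝ) ^ ((1 - 10 * a) * n) ≤ S * (3 / 2 : ℝ) ^ w₀ *
      (((U.filter fun l => w₀ < (line l).card).card : ℝ) + 1) ^ (3 / 2 : ℝ) := by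
  refine lemmas_gen hTRE hCN6 hNU2 hBLA F (10 * a) (w + d + 4 * (2 * t)) (w + d)
    (ball_le hBLA n t d w a hwd hB) (num_four n _ (by omega) hC) S r line rule href U hU ?_ w₀
  intro an ls hT x A hA
  exact serve hTRN hSTP hRSR hTAS F (2 * t) d w (by omega) (by omega) hEx
    (fun x => Gd_mono (by omega) (hg x)) S r line rule href U an ls hT x A hA

/-- the clause `lemmas` of the statement -/
theorem lemmas_field (hTRN : T_TRN) (hSTP : Pool.Agent.H41.SS.T_STP) (hRSR : T_RSR) (hTAS : T_TAS) (hTRE : T_TRE)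
    (hCN6 : T_CN6) (hNU2 : T_NU2) (hBLA : T_BLA) {n k m : ℕ} (F : Fml n k m) (K K₂ : ℕ)
    (hK : 10 * K₂ ≤ K) (hk : 3 ≤ k)
    (hP2 : (K₂ : ℝ) * (1 / Real.sqrt k + lg n k m / k) ≤ 1 → ∃ t d w : ℕ, 1 ≤ t ∧ 12 * t ≤ w ∧
      w ≤ d ∧ w + d + 1 ≤ n ∧ Ex F (2 * t) ∧ (∀ x, Gd F t d w x) ∧
      2 * (bl n (d + 2 * t) : ℝ) * bl n (4 * t) ≤
        (2 : ℝ) ^ (K₂ * Real.log k * (1 / Real.sqrt k + lg n k m / k) * n) ∧
      2 * (2 ^ n * bl n (w + d)) ≤ 3 ^ n)
    (S r : ℕ) (line : ℕ → Clause n) (rule : ℕ → Rule n) (href : IsRef F S r line rule)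
    (U : Finset ℕ) (hU : Once S rule U) (w₀ : ℕ) :
    (2 : ℝ) ^ ((1 - K * Real.log k * (1 / Real.sqrt k + lg n k m / k)) * n) ≤
      S * (3 / 2 : ℝ) ^ w₀ *
      (((U.filter fun l => w₀ < (line l).card).card : ℝ) + 1) ^ (3 / 2 : ℝ) := by
  have hn0 : (0 : ℝ) ≤ n := Nat.cast_nonneg n
  have hk0 : (0 : ℝ) < k := by
    have : 0 < k := by omega
    exact_mod_cast this
  have hL : 0 ≤ lg n k m := lg_nonneg (by omega)
  have hK' : 10 * (K₂ : ℝ) ≤ K := by exact_mod_cast hK
  have hlog : 1 ≤ Real.log k := by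
    rw [Real.le_log_iff_exp_le hk0]
    have h3 : (3 : ℝ) ≤ k := by exact_mod_cast hk
    linarith [Real.exp_one_lt_d9]
  have hs : 0 ≤ 1 / Real.sqrt k + lg n k m / k := by positivity
  by_cases hc : (K₂ : ℝ) * (1 / Real.sqrt k + lg n k m / k) ≤ 1
  · obtain ⟨t, d, w, ht, hw, hwd, hnn, hEx, hg, hB, hC⟩ := hP2 hc
    have h3 := lemmas_ofS hTRN hSTP hRSR hTAS hTRE hCN6 hNU2 hBLA F
      (K₂ * Real.log k * (1 / Real.sqrt k + lg n k m / k)) t d w ht hw hwd hnn hEx hg hB hC S r
      line rule href U hU w₀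
    refine le_trans (Real.rpow_le_rpow_of_exponent_le (by norm_num) ?_) h3
    refine mul_le_mul_of_nonneg_right ?_ hn0
    have h4 : 10 * ((K₂ : ℝ) * Real.log k * (1 / Real.sqrt k + lg n k m / k)) ≤
        K * Real.log k * (1 / Real.sqrt k + lg n k m / k) := by
      have h5 : 0 ≤ Real.log k * (1 / Real.sqrt k + lg n k m / k) := by positivity
      nlinarith [mul_le_mul_of_nonneg_right hK' h5]
    linarith
  · push Not at hc
    have h4 : 1 ≤ (K : ℝ) * Real.log k * (1 / Real.sqrt k + lg n k m / k) := by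
      have h5 : (K₂ : ℝ) * (1 / Real.sqrt k + lg n k m / k) ≤
          K * Real.log k * (1 / Real.sqrt k + lg n k m / k) := by
        refine mul_le_mul_of_nonneg_right ?_ hs
        have h0 : (0 : ℝ) ≤ K₂ := Nat.cast_nonneg _
        nlinarith
      linarith
    have h6 : (2 : ℝ) ^ ((1 - K * Real.log k * (1 / Real.sqrt k + lg n k m / k)) * n) ≤ 1 :=
      rpow_le_one' _ (mul_nonpos_of_nonpos_of_nonneg (by linarith) hn0)
    refine h6.trans ?_
    have h7 := one_le_S href
    have h8 : (1 : ℝ) ≤ (3 / 2 : ℝ) ^ w₀ := one_le_pow₀ (by norm_num)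
    have h9 : (1 : ℝ) ≤ (((U.filter fun l => w₀ < (line l).card).card : ℝ) + 1) ^ (3 / 2 : ℝ) :=
      Real.one_le_rpow (by
        have : (0 : ℝ) ≤ ((U.filter fun l => w₀ < (line l).card).card : ℝ) := Nat.cast_nonneg _
        linarith) (by norm_num)
    calc (1 : ℝ) = 1 * 1 * 1 := by norm_num
      _ ≤ S * (3 / 2 : ℝ) ^ w₀ *
        (((U.filter fun l => w₀ < (line l).card).card : ℝ) + 1) ^ (3 / 2 : ℝ) :=
          mul_le_mul (mul_le_mul h7 h8 (by norm_num) (by linarith)) h9 (by norm_num)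
            (by positivity)

end Pool.Agent.H97.SM
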