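import Pool.Agent.H20.SM.TP

/-!
# A cofinal family of Galois extensions: primes which split completely in progressions
-/

set_option autoImplicit false

open NumberField Filter Topology

namespace Pool.Agent.H97.SM

open Pool.Agent.H20.SM
open Pool.Agent.H27.LS (hat hat_nonneg hat_le_one)
open Pool.Agent.H30.BV (wx NX)

section spl

variable {F : Type} [Field F] [NumberField F]

theorem spl_of [IsGalois ℚ F] {p : ℕ} (hp : p.Prime) (hd : ¬ (p : ℤ) ∣ discr F)
    (P : Ideal (𝓞 F)) (hP : P.IsPrime) (hN : Ideal.absNorm P = p) : Spl F p := by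
  have hpz : Prime (p : ℤ) := Nat.prime_iff_prime_int.1 hp
  have hmem : ((p : ℤ) : 𝓞 F) ∈ P := by
    have := Ideal.absNorm_mem P
    rw [hN] at this
    exact_mod_cast this
  have hlo : P.LiesOver (Ideal.span {(p : ℤ)}) :=
    (Ideal.liesOver_span_iff hP.ne_top hpz).mpr hmem
  have hun := (NumberField.not_dvd_discr_iff_forall_mem F (𝓞 F) hpz).1 hd P hP hmem
  have he : P.ramificationIdx ℤ = 1 := Ideal.ramificationIdx_eq_one _ _
  have hps : (Ideal.span {(p : ℤ)}).IsPrime := by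
    rw [Ideal.span_singleton_prime hpz.ne_zero]
    exact hpz
  have hf : P.inertiaDeg ℤ = 1 := by
    have h1 := Ideal.natAbs_pow_inertiaDeg (p : ℤ) P
    rw [hN, Int.natAbs_natCast] at h1
    have h2 : p ^ (P.inertiaDeg ℤ) = p ^ 1 := by rw [pow_one]; exact h1
    exact Nat.pow_right_injective hp.two_le h2
  have hg := Ideal.ncard_primesOver_mul_ramificationIdxIn_mul_inertiaDegIn
    (Ideal.span {(p : ℤ)}) (𝓞 F) (F ≃ₐ[ℚ] F)
  rw [Ideal.ramificationIdxIn_eq_ramificationIdx (Ideal.span {(p : ℤ)}) P (F ≃ₐ[ℚ] F),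
    Ideal.inertiaDegIn_eq_inertiaDeg (Ideal.span {(p : ℤ)}) P (F ≃ₐ[ℚ] F), he, hf, mul_one,
    mul_one, IsGalois.card_aut_eq_finrank] at hg
  refine ⟨hp, ?_⟩
  rw [← hg]
  congr 1
  ext Q
  constructor
  · rintro ⟨h1, h2⟩
    exact ⟨h1, (Ideal.liesOver_span_iff h1.ne_top hpz).mpr (by exact_mod_cast h2)⟩
  · rintro ⟨h1, h2⟩
    refine ⟨h1, ?_⟩
    have h3 := (Ideal.liesOver_span_iff h1.ne_top hpz).mp h2
    exact_mod_cast h3

theorem gF_zero [IsGalois ℚ F] {p : ℕ} (hp : p.Prime) (hd : ¬ (p : ℤ) ∣ discr F)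
    (hs : ¬ Spl F p) : gF F p = 0 := by
  unfold gF
  have h1 : {P : Ideal (𝓞 F) | P.IsPrime ∧ P ≠ ⊥ ∧ ∃ j : ℕ, 1 ≤ j ∧ Ideal.absNorm P ^ j = p} =
      ∅ := by
    ext P
    simp only [Set.mem_ofPred_eq, Set.mem_empty_iff_false, iff_false]
    rintro ⟨h2, h3, j, h4, h5⟩
    have h6 := (Nat.Prime.pow_eq_iff hp).1 h5
    exact hs (spl_of hp hd P h2 h6.1)
  rw [h1, finsum_mem_empty, zero_div]

end spl

theorem ev1 (A : ℕ) (K : ℝ) (_hK : 0 < K) : ∀ᶠ x : ℝ in atTop,
    K * Real.log x ^ (A + 1) ≤ Real.sqrt x := by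
  have h1 := isLittleO_log_rpow_rpow_atTop ((A + 1 : ℕ) : ℝ) (show (0 : ℝ) < 1 / 2 by norm_num)
  have h2 := h1.bound (show 0 < 1 / K by positivity)
  filter_upwards [h2, eventually_ge_atTop (1 : ℝ)] with x hx hx1
  rw [Real.norm_eq_abs, Real.norm_eq_abs, Real.rpow_natCast,
    abs_of_nonneg (pow_nonneg (Real.log_nonneg hx1) _),
    abs_of_nonneg (Real.rpow_nonneg (by linarith) _), ← Real.sqrt_eq_rpow] at hx
  rw [div_mul_eq_mul_div, one_mul, le_div_iff₀ _hK] at hx
  linarith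

open scoped Classical in
theorem sum_bd {F : Type} [Field F] [NumberField F] [IsGalois ℚ F] (hC : T_CFF) (x : ℝ)
    (hx : 1 ≤ x) (hxd : |(discr F : ℝ)| < Real.sqrt x) (X : ℝ) (hN : NX X ≤ ⌊x⌋₊) (d : ℕ)
    (hd : 1 ≤ d) :
    ∑ n ∈ (Finset.Icc 1 (NX X)).filter (fun n : ℕ => (n : ZMod d) = 1), wx X n * gF F n ≤
      Module.finrank ℚ F * Real.log x *
        (((Finset.Icc 1 ⌊x⌋₊).filter fun p => Spl F p ∧ Real.sqrt x ≤ p ∧ d ∣ p - 1).card : ℝ) +
      3 * (Module.finrank ℚ F * (Real.sqrt x * Real.log x)) := by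
  have hg := (hC F).1
  set r : ℝ := (Module.finrank ℚ F : ℝ) with hr
  have hr0 : 0 ≤ r := Nat.cast_nonneg _
  have hl0 : 0 ≤ Real.log x := Real.log_nonneg hx
  have hnn : ∀ n : ℕ, 0 ≤ ArithmeticFunction.vonMangoldt n :=
    fun n => ArithmeticFunction.vonMangoldt_nonneg
  -- pointwise
  have hpt : ∀ n ∈ (Finset.Icc 1 (NX X)).filter (fun n : ℕ => (n : ZMod d) = 1),
      wx X n * gF F n ≤
        (if Spl F n ∧ Real.sqrt x ≤ n ∧ d ∣ n - 1 then r * Real.log x else 0) +
        (if ¬ n.Prime then r * ArithmeticFunction.vonMangoldt n else 0) +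
        (if (n : ℝ) ≤ Real.sqrt x then r * Real.log x else 0) := by
    intro n hn
    rw [Finset.mem_filter, Finset.mem_Icc] at hn
    obtain ⟨⟨hn1, hn2⟩, hn3⟩ := hn
    have hnx : (n : ℝ) ≤ x := (Nat.le_floor_iff (by linarith)).1 (hn2.trans hN)
    have hn1' : (1 : ℝ) ≤ n := by exact_mod_cast hn1
    have hdn : d ∣ n - 1 := by
      have h1 : ((1 : ℕ) : ZMod d) = (n : ZMod d) := by rw [hn3, Nat.cast_one]
      exact (Nat.modEq_iff_dvd' hn1).1 ((ZMod.natCast_eq_natCast_iff _ _ _).1 h1)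
    have hw : wx X n ≤ ArithmeticFunction.vonMangoldt n := by
      unfold wx
      exact mul_le_of_le_one_right (hnn n) (hat_le_one _)
    have hw0 : 0 ≤ wx X n := mul_nonneg (hnn n) (hat_nonneg _)
    have hL : ArithmeticFunction.vonMangoldt n ≤ Real.log x :=
      ArithmeticFunction.vonMangoldt_le_log.trans (Real.log_le_log (by linarith) hnx)
    have ht : wx X n * gF F n ≤ r * ArithmeticFunction.vonMangoldt n := by
      rw [mul_comm r]
      exact mul_le_mul hw (hg n).2 (hg n).1 (hnn n)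
    have a1 : 0 ≤ (if Spl F n ∧ Real.sqrt x ≤ n ∧ d ∣ n - 1 then r * Real.log x else 0) := by
      split_ifs
      · positivity
      · exact le_rfl
    have a2 : 0 ≤ (if ¬ n.Prime then r * ArithmeticFunction.vonMangoldt n else 0) := by
      split_ifs
      · exact le_rfl
      · exact mul_nonneg hr0 (hnn n)
    have a3 : 0 ≤ (if (n : ℝ) ≤ Real.sqrt x then r * Real.log x else 0) := by
      split_ifs
      · positivity
      · exact le_rfl
    by_cases hp : n.Prime
    · by_cases hs : (n : ℝ) ≤ Real.sqrt x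
      · rw [if_pos hs]
        have := mul_le_mul_of_nonneg_left hL hr0
        linarith
      · push Not at hs
        have hnd : ¬ (n : ℤ) ∣ discr F := by
          intro h
          have h1 : n ∣ (discr F).natAbs := Int.natCast_dvd.1 h
          have h2 := Nat.le_of_dvd (Int.natAbs_pos.2 (discr_ne_zero F)) h1
          have h3 : (n : ℝ) ≤ ((discr F).natAbs : ℝ) := by exact_mod_cast h2
          rw [Nat.cast_natAbs, Int.cast_abs] at h3
          linarith
        by_cases hspl : Spl F n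
        · rw [if_pos ⟨hspl, hs.le, hdn⟩]
          have := mul_le_mul_of_nonneg_left hL hr0
          linarith
        · rw [gF_zero hp hnd hspl, mul_zero]
          linarith
    · rw [if_pos hp]
      linarith
  have hsum : ∑ n ∈ (Finset.Icc 1 (NX X)).filter (fun n : ℕ => (n : ZMod d) = 1),
      wx X n * gF F n ≤ ∑ n ∈ Finset.Icc 1 ⌊x⌋₊,
        ((if Spl F n ∧ Real.sqrt x ≤ n ∧ d ∣ n - 1 then r * Real.log x else 0) +
        (if ¬ n.Prime then r * ArithmeticFunction.vonMangoldt n else 0) +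
        (if (n : ℝ) ≤ Real.sqrt x then r * Real.log x else 0)) := by
    refine (Finset.sum_le_sum hpt).trans (Finset.sum_le_sum_of_subset_of_nonneg ?_ ?_)
    · intro n hn
      rw [Finset.mem_filter, Finset.mem_Icc] at hn
      exact Finset.mem_Icc.2 ⟨hn.1.1, hn.1.2.trans hN⟩
    · intro n _ _
      refine add_nonneg (add_nonneg ?_ ?_) ?_
      · split_ifs
        · positivity
        · exact le_rfl
      · split_ifs
        · exact le_rfl
        · exact mul_nonneg hr0 (hnn n)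
      · split_ifs
        · positivity
        · exact le_rfl
  refine hsum.trans ?_
  rw [Finset.sum_add_distrib, Finset.sum_add_distrib, ← Finset.sum_filter, ← Finset.sum_filter,
    ← Finset.sum_filter, Finset.sum_const, nsmul_eq_mul, Finset.sum_const, nsmul_eq_mul,
    ← Finset.mul_sum]
  have b2 : ∑ n ∈ (Finset.Icc 1 ⌊x⌋₊).filter (fun n : ℕ => ¬ n.Prime),
      ArithmeticFunction.vonMangoldt n ≤ 2 * Real.sqrt x * Real.log x := by
    have h1 := Chebyshev.psi_sub_theta_le hx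
    rw [Chebyshev.psi_sub_theta_eq_sum_not_prime] at h1
    refine le_trans (le_of_eq ?_) h1
    refine Finset.sum_congr ?_ fun _ _ => rfl
    ext n
    simp only [Finset.mem_filter, Finset.mem_Icc, Finset.mem_Ioc]
    constructor
    · rintro ⟨⟨h1, h2⟩, h3⟩
      exact ⟨⟨h1, h2⟩, h3⟩
    · rintro ⟨⟨h1, h2⟩, h3⟩
      exact ⟨⟨h1, h2⟩, h3⟩
  have b3 : (((Finset.Icc 1 ⌊x⌋₊).filter fun n : ℕ => (n : ℝ) ≤ Real.sqrt x).card : ℝ) ≤
      Real.sqrt x := by
    have h1 : (Finset.Icc 1 ⌊x⌋₊).filter (fun n : ℕ => (n : ℝ) ≤ Real.sqrt x) ⊆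
        Finset.Icc 1 ⌊Real.sqrt x⌋₊ := by
      intro n hn
      rw [Finset.mem_filter, Finset.mem_Icc] at hn
      exact Finset.mem_Icc.2 ⟨hn.1.1, Nat.le_floor hn.2⟩
    have h2 := Finset.card_le_card h1
    rw [Nat.card_Icc, Nat.add_sub_cancel] at h2
    have h3 : (((Finset.Icc 1 ⌊x⌋₊).filter fun n : ℕ => (n : ℝ) ≤ Real.sqrt x).card : ℝ) ≤
        (⌊Real.sqrt x⌋₊ : ℝ) := by exact_mod_cast h2
    exact h3.trans (Nat.floor_le (Real.sqrt_nonneg _))
  have c2 := mul_le_mul_of_nonneg_left b2 hr0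
  have c3 := mul_le_mul_of_nonneg_right b3 (mul_nonneg hr0 hl0)
  nlinarith

theorem pf_PRM (h : T_APF) (hC : T_CFF) : T_PRM := by
  classical
  intro F _ _ _ _ A
  obtain ⟨c, X₀, hc, hA⟩ := h F (A + 1)
  set r : ℝ := (Module.finrank ℚ F : ℝ) with hr
  have hr1 : 1 ≤ r := by
    have : 0 < Module.finrank ℚ F := Module.finrank_pos
    rw [hr]
    exact_mod_cast this
  have hr0 : 0 < r := by linarith
  obtain ⟨x₁, hx₁⟩ := eventually_atTop.1 (ev1 A (36 * r / c) (by positivity))
  set x₀ : ℝ := max (max x₁ (6 * |X₀| + 6)) (max (max 36 ((|(discr F : ℝ)| + 1) ^ 2))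
    (Real.exp (2 ^ (A + 1)))) with hx₀
  refine ⟨c / (12 * r), x₀, by positivity, ?_⟩
  intro x hx
  have g1 : x₁ ≤ x := le_trans (le_trans (le_max_left _ _) (le_max_left _ _)) hx
  have g2 : 6 * |X₀| + 6 ≤ x := le_trans (le_trans (le_max_right _ _) (le_max_left _ _)) hx
  have g3 : 36 ≤ x :=
    le_trans (le_trans (le_trans (le_max_left _ _) (le_max_left _ _)) (le_max_right _ _)) hx
  have g4 : (|(discr F : ℝ)| + 1) ^ 2 ≤ x :=
    le_trans (le_trans (le_trans (le_max_right _ _) (le_max_left _ _)) (le_max_right _ _)) hx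
  have g5 : Real.exp (2 ^ (A + 1)) ≤ x :=
    le_trans (le_trans (le_max_right _ _) (le_max_right _ _)) hx
  have hx0 : 0 < x := by linarith
  set X : ℝ := (x - 2) / 3 with hX
  have hX6 : x / 6 ≤ X := by rw [hX]; linarith
  have hXX : X₀ ≤ X := by
    have := le_abs_self X₀
    linarith [abs_nonneg X₀]
  have hlx : 0 < Real.log x := Real.log_pos (by linarith)
  have hlX : Real.log x / 2 ≤ Real.log X := by
    have h1 : Real.log (x / 6) ≤ Real.log X := Real.log_le_log (by positivity) hX6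
    rw [Real.log_div (by linarith) (by norm_num)] at h1
    have h2 : Real.log 36 ≤ Real.log x := Real.log_le_log (by norm_num) g3
    have h3 : Real.log 36 = 2 * Real.log 6 := by
      rw [show (36 : ℝ) = 6 ^ 2 by norm_num, Real.log_pow]
      norm_num
    linarith
  have hpow : Real.log x ^ A ≤ Real.log X ^ (A + 1) := by
    have h1 : (2 : ℝ) ^ (A + 1) ≤ Real.log x := by
      rw [← Real.log_exp (2 ^ (A + 1))]
      exact Real.log_le_log (Real.exp_pos _) g5
    have h2 : (Real.log x / 2) ^ (A + 1) ≤ Real.log X ^ (A + 1) :=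
      pow_le_pow_left₀ (by positivity) hlX _
    refine le_trans ?_ h2
    rw [div_pow, le_div_iff₀ (by positivity), pow_succ]
    exact mul_le_mul_of_nonneg_left h1 (by positivity)
  obtain ⟨q₁, hq⟩ := hA X hXX
  refine ⟨q₁, ?_⟩
  intro d hd1 hdA hrok hne
  have h1 := hq d hd1 (hdA.trans hpow) hrok hne
  have hNX : NX X ≤ ⌊x⌋₊ := by
    unfold NX
    rw [hX, show 3 * ((x - 2) / 3) = x - 2 by ring]
    rw [Nat.ceil_le]
    have := Nat.lt_floor_add_one x
    linarith
  have hdis : |(discr F : ℝ)| < Real.sqrt x := by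
    have h2 : |(discr F : ℝ)| + 1 ≤ Real.sqrt x := by
      rw [← Real.sqrt_sq (show 0 ≤ |(discr F : ℝ)| + 1 by positivity)]
      exact Real.sqrt_le_sqrt g4
    linarith
  have h2 := sum_bd (F := F) hC x (by linarith) hdis X hNX d hd1
  rw [← hr] at h2
  have hd0 : (0 : ℝ) < d := by exact_mod_cast hd1
  have h3 := hx₁ x g1
  have hs0 : 0 < Real.sqrt x := Real.sqrt_pos.2 hx0
  have hss : Real.sqrt x * Real.sqrt x = x := Real.mul_self_sqrt hx0.le
  -- the error term
  have h4 : 3 * (r * (Real.sqrt x * Real.log x)) ≤ c * x / (12 * d) := by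
    rw [le_div_iff₀ (by positivity)]
    have h5 : 36 * r * Real.log x ^ (A + 1) ≤ c * Real.sqrt x := by
      rw [div_mul_eq_mul_div, div_le_iff₀ hc] at h3
      linarith
    have h6 : Real.log x * d ≤ Real.log x ^ (A + 1) := by
      rw [pow_succ, mul_comm (Real.log x ^ A)]
      exact mul_le_mul_of_nonneg_left hdA hlx.le
    calc 3 * (r * (Real.sqrt x * Real.log x)) * (12 * d)
        = 36 * r * (Real.log x * d) * Real.sqrt x := by ring
      _ ≤ 36 * r * Real.log x ^ (A + 1) * Real.sqrt x :=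
          mul_le_mul_of_nonneg_right (mul_le_mul_of_nonneg_left h6 (by positivity)) hs0.le
      _ ≤ c * Real.sqrt x * Real.sqrt x := mul_le_mul_of_nonneg_right h5 hs0.le
      _ = c * x := by rw [mul_assoc, hss]
  have h7 : c * x / (6 * d) ≤ c * X / d := by
    rw [div_le_div_iff₀ (by positivity) hd0]
    have := mul_le_mul_of_nonneg_left hX6 (show 0 ≤ c * d by positivity)
    nlinarith
  have h8 : c * x / (6 * d) = c * x / (12 * d) + c * x / (12 * d) := by
    field_simp
    norm_num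
  set W : ℝ := (((Finset.Icc 1 ⌊x⌋₊).filter fun p => Spl F p ∧ Real.sqrt x ≤ p ∧
    d ∣ p - 1).card : ℝ) with hW
  have h9 : c * x / (12 * d) ≤ r * Real.log x * W := by linarith
  rw [div_mul_eq_mul_div, div_div, div_le_iff₀ (by positivity)]
  rw [div_le_iff₀ (by positivity)] at h9
  nlinarith

end Pool.Agent.H97.SM
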